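import Pool.Agent.helper81.EP.SpecO

/-!
# Project ep (MP_ebc808_nt), module OS2: the sparse case
-/

set_option autoImplicit false

open Finset
open scoped Real

namespace Pool.Agent.EP

theorem OS2_large (M ε : ℝ) (hε : 0 < ε) : ∃ Z₁ : ℕ, ∀ Z : ℕ, Z₁ ≤ Z → M ≤ (Z : ℝ) ^ ε := by
  have h1 : Filter.Tendsto (fun Z : ℕ => (Z : ℝ) ^ ε) Filter.atTop Filter.atTop :=
    (tendsto_rpow_atTop hε).comp tendsto_natCast_atTop_atTop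
  exact Filter.eventually_atTop.1 (h1.eventually_ge_atTop M)

theorem OS2 (hOA : OA_stmt) : OS2_stmt := by
  intro β hβ0 hβ1 hL ε hε hε5
  obtain ⟨y₀, hy₀⟩ := hL ε hε
  obtain ⟨Z₀, hZ₀⟩ := hOA ε hε (by linarith)
  obtain ⟨Z₁, hZ₁⟩ := OS2_large (2 * y₀ + 4) (2 * ε) (by linarith)
  refine ⟨max (max Z₀ Z₁) 1, ?_⟩
  intro Z b Y hZ hb hbY hY4 hYZ hsO
  have hZ1 : (1 : ℝ) ≤ Z := by exact_mod_cast le_trans (le_max_right _ _) hZ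
  have hZ0 : (0 : ℝ) < Z := by linarith
  have hbig := hZ₁ Z (le_trans (le_trans (le_max_right _ _) (le_max_left _ _)) hZ)
  have hy0n : (0 : ℝ) ≤ y₀ := Nat.cast_nonneg _
  have hbig4 : (4 : ℝ) ≤ (Z : ℝ) ^ (2 * ε) := by linarith
  have h4b : (1 : ℝ) ≤ (4 : ℝ) ^ b := one_le_pow₀ (by norm_num)
  have hYR : 4 * (4 : ℝ) ^ b ≤ Y := by exact_mod_cast hY4
  have hY1 : (4 : ℝ) ≤ Y := by linarith
  have hY0 : (0 : ℝ) < Y := by linarith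
  have hYn : 4 ≤ Y := by exact_mod_cast hY1
  have hYleZ : (Y : ℝ) ≤ Z := by
    have h1 : Y ≤ 16 ^ b * Y := Nat.le_mul_of_pos_left Y (by positivity)
    exact_mod_cast h1.trans hbY
  -- the choice of U
  obtain ⟨U, hU⟩ : ∃ U : ℕ, U = Y / 2 := ⟨_, rfl⟩
  have hUY : U < Y := by omega
  have hU4n : Y ≤ 4 * U := by omega
  have hU4 : (Y : ℝ) ≤ 4 * U := by exact_mod_cast hU4n
  have hYU2 : Y ≤ 2 * (Y - U) := by omega
  have hYU2R : (Y : ℝ) ≤ 2 * ((Y - U : ℕ) : ℝ) := by exact_mod_cast hYU2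
  have hYUle : ((Y - U : ℕ) : ℝ) ≤ Y := by exact_mod_cast Nat.sub_le Y U
  have hYU0 : (0 : ℝ) < ((Y - U : ℕ) : ℝ) := by linarith
  have hU4b : (4 : ℝ) ^ b ≤ U := by linarith
  have hU0 : (0 : ℝ) < U := by linarith
  -- powers of Z
  have hz20 : (Z : ℝ) ^ (20 * ε) = (Z : ℝ) ^ (10 * ε) * (Z : ℝ) ^ (10 * ε) := by
    rw [← Real.rpow_add hZ0]
    congr 1
    ring
  have hz10 : (4 : ℝ) ≤ (Z : ℝ) ^ (10 * ε) :=
    hbig4.trans (Real.rpow_le_rpow_of_exponent_le hZ1 (by linarith))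
  have hUZ : (Z : ℝ) ^ (10 * ε) ≤ U := by
    have h1 : 4 * (Z : ℝ) ^ (10 * ε) ≤ (Z : ℝ) ^ (20 * ε) := by
      rw [hz20]
      exact mul_le_mul_of_nonneg_right hz10 (by linarith)
    linarith
  have hcond : (sO Y : ℝ) ≤ Real.sqrt ((4 : ℝ) ^ b * U) * (Z : ℝ) ^ (-(5 * ε)) := by
    refine hsO.trans ?_
    have h1 : (4 : ℝ) ^ b ≤ Real.sqrt ((4 : ℝ) ^ b * U) := by
      refine Real.le_sqrt_of_sq_le ?_
      rw [sq]
      exact mul_le_mul_of_nonneg_left hU4b (by linarith)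
    have h2 : (Z : ℝ) ^ (-(10 * ε)) ≤ (Z : ℝ) ^ (-(5 * ε)) :=
      Real.rpow_le_rpow_of_exponent_le hZ1 (by linarith)
    exact mul_le_mul h1 h2 (Real.rpow_nonneg hZ0.le _) (Real.sqrt_nonneg _)
  have hmain := hZ₀ Z b Y U (le_trans (le_trans (le_max_left _ _) (le_max_left _ _)) hZ) hb hbY hUY
    hUZ hcond
  -- lower bound for the square root
  have hsqrt : (2 : ℝ) ^ b * (Y : ℝ) ^ ((1 : ℝ) / 2) / 2 ≤ Real.sqrt ((4 : ℝ) ^ b * U) := by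
    refine Real.le_sqrt_of_sq_le ?_
    have h1 : ((2 : ℝ) ^ b * (Y : ℝ) ^ ((1 : ℝ) / 2) / 2) ^ 2 = (4 : ℝ) ^ b * (Y / 4) := by
      have h2 : ((Y : ℝ) ^ ((1 : ℝ) / 2)) ^ 2 = Y := by
        rw [← Real.rpow_natCast, ← Real.rpow_mul hY0.le]
        norm_num
      have h3 : ((2 : ℝ) ^ b) ^ 2 = (4 : ℝ) ^ b := by
        rw [← pow_mul, mul_comm, pow_mul]
        norm_num
      calc ((2 : ℝ) ^ b * (Y : ℝ) ^ ((1 : ℝ) / 2) / 2) ^ 2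
          = ((2 : ℝ) ^ b) ^ 2 * ((Y : ℝ) ^ ((1 : ℝ) / 2)) ^ 2 / 4 := by ring
        _ = _ := by
            rw [h2, h3]
            ring
    rw [h1]
    refine mul_le_mul_of_nonneg_left ?_ (by linarith)
    linarith
  -- lower bound for sO (Y - U)
  have hyU : y₀ ≤ Y - U := by
    have h1 : (2 * y₀ + 4 : ℝ) ≤ Y := by
      refine hbig.trans (le_trans ?_ hYZ)
      exact Real.rpow_le_rpow_of_exponent_le hZ1 (by linarith)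
    have h2 : 2 * y₀ + 4 ≤ Y := by exact_mod_cast h1
    omega
  have hsO2 := hy₀ (Y - U) hyU
  have hlow : (Y : ℝ) ^ (β - ε) / 2 ≤ sO (Y - U) := by
    refine le_trans ?_ hsO2
    rcases le_total 0 (β - ε) with h | h
    · have h1 : ((Y : ℝ) / 2) ^ (β - ε) ≤ ((Y - U : ℕ) : ℝ) ^ (β - ε) :=
        Real.rpow_le_rpow (by linarith) (by linarith) h
      refine le_trans ?_ h1
      rw [Real.div_rpow hY0.le (by norm_num)]
      refine div_le_div_of_nonneg_left (Real.rpow_nonneg hY0.le _)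
        (Real.rpow_pos_of_pos (by norm_num) _) ?_
      calc (2 : ℝ) ^ (β - ε) ≤ (2 : ℝ) ^ (1 : ℝ) :=
            Real.rpow_le_rpow_of_exponent_le (by norm_num) (by linarith)
        _ = 2 := Real.rpow_one 2
    · have h1 : (Y : ℝ) ^ (β - ε) ≤ ((Y - U : ℕ) : ℝ) ^ (β - ε) :=
        Real.rpow_le_rpow_of_nonpos hYU0 hYUle h
      have h2 : 0 ≤ (Y : ℝ) ^ (β - ε) := Real.rpow_nonneg hY0.le _
      linarith
  have hYβ : (Y : ℝ) ^ β * (Z : ℝ) ^ (-ε) ≤ (Y : ℝ) ^ (β - ε) := by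
    rw [Real.rpow_sub hY0, div_eq_mul_inv, ← Real.rpow_neg hY0.le]
    refine mul_le_mul_of_nonneg_left ?_ (Real.rpow_nonneg hY0.le _)
    exact Real.rpow_le_rpow_of_nonpos hY0 hYleZ (by linarith)
  have hprod : (Y : ℝ) ^ β * (Z : ℝ) ^ (-ε) / 2 * ((2 : ℝ) ^ b * (Y : ℝ) ^ ((1 : ℝ) / 2) / 2) ≤
      (Z : ℝ) ^ (9 * ε) * sO Z := by
    refine le_trans ?_ hmain
    refine mul_le_mul ?_ hsqrt (by positivity) (Nat.cast_nonneg _)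
    refine le_trans ?_ hlow
    linarith
  have hsplit : (Y : ℝ) ^ (β + 1 / 2) = (Y : ℝ) ^ β * (Y : ℝ) ^ ((1 : ℝ) / 2) :=
    Real.rpow_add hY0 _ _
  have hz12 : (Z : ℝ) ^ (-(12 * ε)) * (Z : ℝ) ^ (9 * ε) * (Z : ℝ) ^ (2 * ε) = (Z : ℝ) ^ (-ε) := by
    rw [← Real.rpow_add hZ0, ← Real.rpow_add hZ0]
    congr 1
    ring
  have hz9 : 0 < (Z : ℝ) ^ (9 * ε) := Real.rpow_pos_of_pos hZ0 _
  have hz12' : 0 < (Z : ℝ) ^ (-(12 * ε)) := Real.rpow_pos_of_pos hZ0 _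
  have hY' : 0 ≤ (Y : ℝ) ^ (β + 1 / 2) * (2 : ℝ) ^ b := by positivity
  refine le_of_mul_le_mul_left ?_ hz9
  refine le_trans ?_ hprod
  calc (Z : ℝ) ^ (9 * ε) * ((Y : ℝ) ^ (β + 1 / 2) * (2 : ℝ) ^ b * (Z : ℝ) ^ (-(12 * ε)))
      = (Y : ℝ) ^ (β + 1 / 2) * (2 : ℝ) ^ b * ((Z : ℝ) ^ (-(12 * ε)) * (Z : ℝ) ^ (9 * ε)) := by ring
    _ ≤ (Y : ℝ) ^ (β + 1 / 2) * (2 : ℝ) ^ b *
        ((Z : ℝ) ^ (-(12 * ε)) * (Z : ℝ) ^ (9 * ε) * (Z : ℝ) ^ (2 * ε) / 4) := by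
        refine mul_le_mul_of_nonneg_left ?_ hY'
        have h1 : 0 < (Z : ℝ) ^ (-(12 * ε)) * (Z : ℝ) ^ (9 * ε) := by positivity
        nlinarith
    _ = (Y : ℝ) ^ β * (Z : ℝ) ^ (-ε) / 2 * ((2 : ℝ) ^ b * (Y : ℝ) ^ ((1 : ℝ) / 2) / 2) := by
        rw [hz12, hsplit]
        ring

end Pool.Agent.EP
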